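import Pool.Agent.Pmj.Main

set_option autoImplicit false

/-!
# Postman joins in graphs with few vertices of odd degree
-/

namespace Pool.Agent.Results.MP_3b820a_co.FewOddVertices

open Pool.Agent.Pmj

/-- Let `G` be a finite multigraph (edge set `E`, `ends e` is the unordered pair of ends of `e`; loops
do not count), and let `n` be the number of its vertices of odd degree. Assume that every cut with an
odd number of edges has more than `2a + 1` edges, and that `n ≤ 12` or that every such cut has more than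
`2a + 1 + (n - 2) / 2 * log₂ ((n - 2) / 8)` edges. Then the edge set is the union of `2a + 1` disjoint
postman joins: there is a colouring `c` of the edges with `2a + 1` colours such that for every colour `i`
the edges which do not have colour `i` form a cycle (an even set at every vertex). -/
theorem result :
  ∀ (a : ℕ) (V E : Type) [Fintype V] [DecidableEq V] [Fintype E] [DecidableEq E] (ends : E → Sym2 V)
    (n : ℕ),
    n = (Finset.univ.filter fun v : V =>
      Odd (Finset.univ.filter fun e => v ∈ ends e ∧ ¬ (ends e).IsDiag).card).card →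
    (∀ X : Finset V, Odd (Finset.univ.filter fun e => ∃ x ∈ X, ∃ y, y ∉ X ∧ ends e = s(x, y)).card →
      2 * a + 1 < (Finset.univ.filter fun e => ∃ x ∈ X, ∃ y, y ∉ X ∧ ends e = s(x, y)).card) →
    (n ≤ 12 ∨
      ∀ X : Finset V, Odd (Finset.univ.filter fun e => ∃ x ∈ X, ∃ y, y ∉ X ∧ ends e = s(x, y)).card →
        (2 * a + 1 : ℝ) + ((n : ℝ) - 2) / 2 * Real.logb 2 (((n : ℝ) - 2) / 8) <
          (Finset.univ.filter fun e => ∃ x ∈ X, ∃ y, y ∉ X ∧ ends e = s(x, y)).card) →
    ∃ c : E → Fin (2 * a + 1), ∀ (i : Fin (2 * a + 1)) (v : V),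
      Even (Finset.univ.filter fun e => c e ≠ i ∧ v ∈ ends e ∧ ¬ (ends e).IsDiag).card := by
  intro a V E _ _ _ _ ends n hn hcut hlog
  -- the ends as an ordered pair
  obtain ⟨f, hf⟩ : ∃ f : E → V × V, ∀ e, ends e = s((f e).1, (f e).2) :=
    ⟨fun e => (ends e).out, fun e => (Quot.out_eq (ends e)).symm⟩
  have hdl : ∀ X : Finset V,
      (Finset.univ.filter fun e => ∃ x ∈ X, ∃ y, y ∉ X ∧ ends e = s(x, y)) = dl f X := by
    intro X
    ext e
    rw [mem_dl, Finset.mem_filter]
    simp only [Finset.mem_univ, true_and, hf e, Sym2.eq_iff]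
    constructor
    · rintro ⟨x, hx, y, hy, ⟨h1, h2⟩ | ⟨h1, h2⟩⟩
      · rw [h1, h2]
        exact fun h => hy (h.1 hx)
      · rw [h1, h2]
        exact fun h => hy (h.2 hx)
    · intro h
      by_cases h1 : (f e).1 ∈ X
      · by_cases h2 : (f e).2 ∈ X
        · exact absurd (iff_of_true h1 h2) h
        · exact ⟨_, h1, _, h2, Or.inl ⟨rfl, rfl⟩⟩
      · by_cases h2 : (f e).2 ∈ X
        · exact ⟨_, h2, _, h1, Or.inr ⟨rfl, rfl⟩⟩
        · exact absurd (iff_of_false h1 h2) h
  have hdeg : ∀ (v : V) (e : E), (v ∈ ends e ∧ ¬ (ends e).IsDiag) ↔ e ∈ dl f {v} := by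
    intro v e
    rw [mem_dl, hf e, Sym2.mem_iff, Sym2.mk_isDiag_iff]
    simp only [Finset.mem_singleton]
    constructor
    · rintro ⟨h1 | h1, h2⟩
      · exact fun h => h2 (h1.symm.trans (h.1 h1.symm).symm)
      · exact fun h => h2 ((h.2 h1.symm).trans h1)
    · intro h
      by_cases h1 : (f e).1 = v
      · refine ⟨Or.inl h1.symm, fun h2 => h (iff_of_true h1 (h2 ▸ h1))⟩
      · by_cases h2 : (f e).2 = v
        · refine ⟨Or.inr h2.symm, fun h3 => h1 (h3 ▸ h2)⟩
        · exact absurd (iff_of_false h1 h2) h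
  have hdegs : ∀ v : V, (Finset.univ.filter fun e => v ∈ ends e ∧ ¬ (ends e).IsDiag) = dl f {v} := by
    intro v
    ext e
    rw [Finset.mem_filter, hdeg v e]
    simp
  simp only [hdl] at hcut hlog
  simp only [hdegs] at hn
  -- the odd vertices
  obtain ⟨T, hT⟩ : ∃ T : Finset V, T = Finset.univ.filter fun v : V => Odd (dl f {v}).card := ⟨_, rfl⟩
  have hmT : ∀ v, v ∈ T ↔ Odd (dl f {v}).card := fun v => by simp [hT]
  rw [← hT] at hn
  have hpar : ∀ X : Finset V, (dl f X).card % 2 = (X ∩ T).card % 2 := by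
    intro X
    have h1 := cut_mod f Finset.univ X
    simp only [Finset.univ_inter] at h1
    have h2 : (X ∩ T).card = ∑ v ∈ X, if v ∈ T then 1 else 0 := by
      rw [Finset.sum_ite_mem, Finset.sum_const, smul_eq_mul, mul_one]
    rw [h1, h2, Finset.sum_nat_mod, Finset.sum_nat_mod X 2 (fun v => if v ∈ T then 1 else 0)]
    congr 1
    refine Finset.sum_congr rfl fun v _ => ?_
    by_cases hv : v ∈ T
    · rw [if_pos hv, Nat.odd_iff.1 ((hmT v).1 hv)]
    · rw [if_neg hv]
      have h3 : ¬ Odd (dl f {v}).card := fun h => hv ((hmT v).2 h)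
      rw [Nat.not_odd_iff_even] at h3
      rw [Nat.even_iff.1 h3]
  have hev : Even T.card := by
    have h1 := hpar Finset.univ
    have h2 : dl f Finset.univ = ∅ := by
      ext e
      simp [mem_dl]
    rw [h2, Finset.univ_inter, Finset.card_empty] at h1
    exact Nat.even_iff.2 h1.symm
  -- it is enough to find a colouring by `T`-joins
  suffices hc : ∃ c : E → Fin (2 * a + 1), TCol f T (2 * a + 1) c by
    obtain ⟨c, hc⟩ := hc
    refine ⟨c, fun i v => ?_⟩
    have h1 : (Finset.univ.filter fun e => c e ≠ i ∧ v ∈ ends e ∧ ¬ (ends e).IsDiag) =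
        (dl f {v}).filter fun e => ¬ c e = i := by
      ext e
      rw [Finset.mem_filter, Finset.mem_filter, hdeg v e]
      simp only [Finset.mem_univ, true_and]
      exact and_comm
    have h2 := Finset.card_filter_add_card_filter_not (s := dl f {v}) (fun e => c e = i)
    have h3 := hc i v
    rw [hmT v, Nat.odd_iff, Nat.odd_iff] at h3
    rw [h1, Nat.even_iff]
    omega
  rcases T.eq_empty_or_nonempty with hT0 | hT0
  · refine main 1 _ f T ⟨hev, fun X => ?_, fun X hX => ?_⟩ le_rfl _ (by omega) (by omega) fun h => ?_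
    · rw [one_mul]
      exact hpar X
    · rw [hT0] at hX
      simp at hX
    · rw [hT0] at h
      exact absurd h Finset.not_nonempty_empty
  obtain ⟨v0, hv0⟩ := hT0
  obtain ⟨X, hX, hmin⟩ := Finset.exists_min_image
    (Finset.univ.filter fun X : Finset V => Odd (X ∩ T).card) (fun X => d f X)
    ⟨{v0}, by simp [Finset.inter_eq_left.2 (Finset.singleton_subset_iff.2 hv0)]⟩
  simp only [Finset.mem_filter, Finset.mem_univ, true_and] at hX hmin
  have hodd : ∀ Y : Finset V, Odd (Y ∩ T).card → Odd (dl f Y).card := by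
    intro Y hY
    rw [Nat.odd_iff] at hY ⊢
    rw [hpar Y, hY]
  have hk := hodd X hX
  have hk1 := hcut X hk
  refine main (d f X) _ f T ⟨hev, fun Y => ?_, fun Y hY => hmin Y hY⟩ le_rfl _ (by omega) ?_ fun h => ?_
  · rw [Nat.mul_mod, show d f X % 2 = 1 from Nat.odd_iff.1 hk, one_mul, Nat.mod_mod]
    exact hpar Y
  · rw [show d f X % 2 = 1 from Nat.odd_iff.1 hk]
    omega
  · have h2 : 2 ≤ T.card := by
      have h1 := h.card_pos
      obtain ⟨r, hr⟩ := hev
      omega
    rcases hlog with h12 | hlog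
    · have h3 := h_small hev h2 (by omega)
      have h4 : 2 * a + 3 ≤ (dl f X).card := by
        rw [Nat.odd_iff] at hk
        omega
      have h5 : ((2 * a + 3 : ℕ) : ℝ) ≤ d f X := by exact_mod_cast h4
      push_cast at h5 ⊢
      linarith
    · have h3 := hlog X hk
      rw [hn] at h3
      push_cast
      exact h3

end Pool.Agent.Results.MP_3b820a_co.FewOddVertices
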